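import Mathlib
import Pool.Agent.Work.MP_8f100c_ag.Small

namespace Pool.Agent.Results.MP_8f100c_ag.LeastDimension

open MvPolynomial

/-- `V(F)` in complex projective `n`-space is smooth: the derivatives of `F` have no common zero
on `V(F)`. -/
def IsSmooth {n : ℕ} (F : MvPolynomial (Fin (n + 1)) ℂ) : Prop :=
  ∀ x : Fin (n + 1) → ℂ, x ≠ 0 → eval x F = 0 → ∃ i, eval x (pderiv i F) ≠ 0

/-- `V(F)` in complex projective `n`-space is (irreducible and) unirational: there is a rational map
from some projective space `P^m`, given by `n + 1` forms `g i` of one degree `k` which are not all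
zero, whose values (where defined) lie on `V(F)` and are Zariski dense in it, i.e. every form `H`
vanishing at all these values vanishes on all of `V(F)`. -/
def IsUnirational {n : ℕ} (F : MvPolynomial (Fin (n + 1)) ℂ) : Prop :=
  ∃ (m k : ℕ) (g : Fin (n + 1) → MvPolynomial (Fin (m + 1)) ℂ),
    (∀ i, (g i).IsHomogeneous k) ∧ (∃ i, g i ≠ 0) ∧
    (∀ t : Fin (m + 1) → ℂ, (fun i => eval t (g i)) ≠ 0 → eval (fun i => eval t (g i)) F = 0) ∧
    ∀ (D : ℕ) (H : MvPolynomial (Fin (n + 1)) ℂ), H.IsHomogeneous D →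
      (∀ t : Fin (m + 1) → ℂ, (fun i => eval t (g i)) ≠ 0 → eval (fun i => eval t (g i)) H = 0) →
      ∀ x : Fin (n + 1) → ℂ, x ≠ 0 → eval x F = 0 → eval x H = 0

/-- The least `n` such that complex projective `n`-space contains a smooth unirational hypersurface
of degree `d` is `d`, for every `d ≥ 1`. -/
theorem result (d : ℕ) (hd : 1 ≤ d) :
    IsLeast {n : ℕ | ∃ F : MvPolynomial (Fin (n + 1)) ℂ, F ≠ 0 ∧ F.IsHomogeneous d ∧
      IsSmooth F ∧ IsUnirational F} d :=
  Pool.Agent.Work.MP_8f100c_ag.main d hd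

end Pool.Agent.Results.MP_8f100c_ag.LeastDimension
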